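import Pool.Agent.Run7.h283.MV.Trans

/-!
# Members of large norm; densities
-/

set_option autoImplicit false

namespace Run7.h283.MV

open NumberField IsDedekindDomain Finset Filter Topology Pool.Agent.H691R3 Pool.Agent.TH876.Loc
open Run7.h283.MK Run7.h283.UE Run7.h283.MO

variable {K : Type} [Field K] [NumberField K] {ι : Type} {S : ι → Finset (Pr K)} {θ : ℝ}

open Classical in
/-- ideals with a member of large norm are rare -/
theorem Few.far (h : Few S θ) (hθ : θ < 1) {δ : ℝ} (hδ : 0 < δ) : ∃ C : ℝ, ∀ Z N : ℝ, 1 ≤ Z →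
    1 ≤ N → (((IF K N).filter fun n => ∃ i ∈ U S n, Z < nn (S i)).card : ℝ) ≤
      C * Z ^ (θ - 1 + δ) * N := by
  have hm : 0 < min δ ((1 - θ) / 2) := lt_min hδ (by linarith)
  obtain ⟨D, hD, h'⟩ := h.count (min δ ((1 - θ) / 2)) hm
  have hθ' : θ + min δ ((1 - θ) / 2) < 1 := by
    have := min_le_right δ ((1 - θ) / 2)
    linarith
  obtain ⟨C, hC, htail⟩ := power_tail (fun i => nn (S i)) hD hθ' h'
  obtain ⟨C', hC', hbad⟩ := bad_card K
  refine ⟨C' * C, fun Z N hZ hN => ?_⟩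
  have h1 := hbad S (h.summable hθ) Z (C * Z ^ (θ + min δ ((1 - θ) / 2) - 1)) (fun t ht =>
    htail Z hZ t fun i hi => (ht i hi).le) N (by linarith)
  have h2 : Z ^ (θ + min δ ((1 - θ) / 2) - 1) ≤ Z ^ (θ - 1 + δ) := by
    refine Real.rpow_le_rpow_of_exponent_le hZ ?_
    have := min_le_left δ ((1 - θ) / 2)
    linarith
  calc _ ≤ C' * (C * Z ^ (θ + min δ ((1 - θ) / 2) - 1)) * N := h1
    _ ≤ C' * (C * Z ^ (θ - 1 + δ)) * N := by
        refine mul_le_mul_of_nonneg_right ?_ (by linarith)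
        exact mul_le_mul_of_nonneg_left (mul_le_mul_of_nonneg_left h2 hC.le) hC'.le
    _ = C' * C * Z ^ (θ - 1 + δ) * N := by ring

end Run7.h283.MV
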