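import Pool.Agent.Run7.h283.MO.Unit

/-!
# Families with few members of small norm and few members over a given set of primes
-/

set_option autoImplicit false

namespace Run7.h283.MV

open NumberField IsDedekindDomain Finset Filter Topology Pool.Agent.H691R3 Pool.Agent.TH876.Loc
open Run7.h283.MK Run7.h283.UE Run7.h283.MO

variable {K : Type} [Field K] [NumberField K]

/-- few members of small norm, few members over a given set of primes -/
structure Few {ι : Type} (S : ι → Finset (Pr K)) (θ : ℝ) : Prop where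
  count : ∀ ε : ℝ, 0 < ε → ∃ D : ℝ, 0 < D ∧ ∀ X : ℝ, 1 ≤ X → ∀ F : Finset ι,
      (∀ x ∈ F, nn (S x) ≤ X) → (F.card : ℝ) ≤ D * X ^ (θ + ε)
  unit : ∃ C : ℝ, 1 ≤ C ∧ ∀ T : Finset (Pr K), ∀ F : Finset ι, (∀ x ∈ F, S x ⊆ T) →
      (F.card : ℝ) ≤ C ^ (T.card + 1)

variable {ι ι' : Type} {S : ι → Finset (Pr K)} {S' : ι' → Finset (Pr K)} {θ : ℝ}

theorem Few.tuples (h : Few S θ) (hθ : θ < 1) (k : ℕ) :
    Few (fun x : Fin (k + 1) → ι => un S x) (1 - (1 - θ) / ((k : ℝ) + 1)) := by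
  classical
  obtain ⟨C, hC, hu⟩ := h.unit
  refine ⟨fun ε hε => MO.tuples hθ hC h.count hu k ε hε, C ^ (k + 1), one_le_pow₀ hC, ?_⟩
  intro T F hF
  obtain ⟨G, hG⟩ : ∃ G : Finset ι, G = F.biUnion fun x => Finset.univ.image x := ⟨_, rfl⟩
  have hG1 : ∀ a ∈ G, S a ⊆ T := by
    intro a ha
    rw [hG, Finset.mem_biUnion] at ha
    obtain ⟨x, hx, ha⟩ := ha
    obtain ⟨i, -, rfl⟩ := Finset.mem_image.1 ha
    intro v hv
    exact hF x hx (mem_un.2 ⟨i, hv⟩)
  have h1 := hu T G hG1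
  have h2 : F ⊆ Fintype.piFinset fun _ : Fin (k + 1) => G := by
    intro x hx
    rw [Fintype.mem_piFinset]
    intro i
    rw [hG, Finset.mem_biUnion]
    exact ⟨x, hx, Finset.mem_image_of_mem _ (Finset.mem_univ i)⟩
  have h3 : (F.card : ℝ) ≤ (G.card : ℝ) ^ (k + 1) := by
    have h4 := Finset.card_le_card h2
    rw [Fintype.card_piFinset, Finset.prod_const, Finset.card_univ, Fintype.card_fin] at h4
    exact_mod_cast h4
  refine h3.trans ?_
  rw [← pow_mul, mul_comm, pow_mul]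
  exact pow_le_pow_left₀ (Nat.cast_nonneg _) h1 _

/-- passing to a family with a map with bounded fibres -/
theorem Few.comap (h : Few S' θ) (φ : ι → ι') (S0 : Finset (Pr K)) (D : ℕ)
    (hφ : ∀ y, ∀ v ∈ S' (φ y), v ∈ S y ∨ v ∈ S0)
    (hD : ∀ x, ∀ F : Finset ι, (∀ y ∈ F, φ y = x) → F.card ≤ D) : Few S θ := by
  classical
  have hcard : ∀ F : Finset ι, (F.card : ℝ) ≤ (D : ℝ) * ((F.image φ).card : ℝ) := by
    intro F
    have h1 : F.card ≤ D * (F.image φ).card := by
      rw [Finset.card_eq_sum_card_image φ F, mul_comm, ← smul_eq_mul]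
      exact Finset.sum_le_card_nsmul _ _ _ fun x _ => hD x _ fun y hy => (Finset.mem_filter.1 hy).2
    exact_mod_cast h1
  have hsub : ∀ y, S' (φ y) ⊆ S y ∪ S0 := fun y v hv => Finset.mem_union.2 (hφ y v hv)
  refine ⟨fun ε hε => ?_, ?_⟩
  · obtain ⟨A, hA, hA'⟩ := h.count ε hε
    have hn0 := nn_pos S0
    refine ⟨((D : ℝ) + 1) * (A * nn S0 ^ (θ + ε)), by positivity, fun X hX F hF => ?_⟩
    have h1 := hA' (X * nn S0) (one_le_mul_of_one_le_of_one_le hX (one_le_nn _)) (F.image φ) (by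
      intro x hx
      obtain ⟨y, hy, rfl⟩ := Finset.mem_image.1 hx
      have h2 : nn (S y ∪ S0) ≤ nn (S y) * nn S0 := by
        rw [← Finset.union_sdiff_self_eq_union, nn_union Finset.disjoint_sdiff]
        exact mul_le_mul_of_nonneg_left (nn_mono Finset.sdiff_subset) (nn_pos _).le
      exact ((nn_mono (hsub y)).trans h2).trans (mul_le_mul_of_nonneg_right (hF y hy) hn0.le))
    rw [Real.mul_rpow (by linarith) hn0.le] at h1
    have hX0 : 0 < X := by linarith
    calc (F.card : ℝ) ≤ (D : ℝ) * ((F.image φ).card : ℝ) := hcard F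
      _ ≤ ((D : ℝ) + 1) * (A * (X ^ (θ + ε) * nn S0 ^ (θ + ε))) := by
          refine mul_le_mul (by linarith) h1 (Nat.cast_nonneg _) (by positivity)
      _ = _ := by ring
  · obtain ⟨C, hC, hu⟩ := h.unit
    refine ⟨((D : ℝ) + 1) * C ^ (S0.card + 1), ?_, fun T F hF => ?_⟩
    · have h1 : (1 : ℝ) ≤ C ^ (S0.card + 1) := one_le_pow₀ hC
      have h2 : (0 : ℝ) ≤ D := Nat.cast_nonneg _
      nlinarith
    · have h1 := hu (T ∪ S0) (F.image φ) (by
        intro x hx
        obtain ⟨y, hy, rfl⟩ := Finset.mem_image.1 hx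
        exact (hsub y).trans (Finset.union_subset_union_left (hF y hy)))
      have hD0 : (0 : ℝ) ≤ D := Nat.cast_nonneg _
      have hle : (T ∪ S0).card + 1 ≤ (S0.card + 1) * (T.card + 1) := by
        have := Finset.card_union_le T S0
        nlinarith
      calc (F.card : ℝ) ≤ (D : ℝ) * ((F.image φ).card : ℝ) := hcard F
        _ ≤ ((D : ℝ) + 1) * C ^ ((S0.card + 1) * (T.card + 1)) := by
            refine mul_le_mul (by linarith) (h1.trans (pow_le_pow_right₀ hC hle))
              (Nat.cast_nonneg _) (by positivity)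
        _ ≤ ((D : ℝ) + 1) ^ (T.card + 1) * C ^ ((S0.card + 1) * (T.card + 1)) := by
            refine mul_le_mul_of_nonneg_right ?_ (by positivity)
            exact le_self_pow₀ (by linarith) (by omega)
        _ = _ := by rw [mul_pow, pow_mul]

theorem Few.summable (h : Few S θ) (hθ : θ < 1) : Summable fun i => (nn (S i))⁻¹ := by
  obtain ⟨D, hD, h'⟩ := h.count ((1 - θ) / 2) (by linarith)
  exact summable_of_count _ (fun x => one_le_nn _) hD
    (θ := θ + (1 - θ) / 2) (by linarith) fun X hX t ht => h' X hX t ht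

theorem Few.summable_tuples (h : Few S θ) (hθ : θ < 1) (k : ℕ) :
    Summable fun x : Fin (k + 1) → ι => (nn (un S x))⁻¹ := by
  refine (h.tuples hθ k).summable ?_
  have : 0 < (1 - θ) / ((k : ℝ) + 1) := div_pos (by linarith) (by positivity)
  linarith

theorem pow_ncard (S : ι → Finset (Pr K)) (k : ℕ) (n : Ideal (𝓞 K)) :
    ((U S n).ncard : ℝ) ^ k = ((U (fun x : Fin k → ι => un S x) n).ncard : ℝ) := by
  rw [U_un, ncard_pi, Nat.cast_pow]

/-- **the moments** -/
theorem Few.moments (h : Few S θ) (hθ : θ < 1) (k : ℕ) :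
    Tendsto (fun N : ℝ => (∑ n ∈ IF K N, ((U S n).ncard : ℝ) ^ (k + 1)) / cnt K N) atTop
      (𝓝 (∑' x : Fin (k + 1) → ι, (nn (un S x))⁻¹)) := by
  refine (mean (h.summable_tuples hθ k)).congr fun N => ?_
  congr 1
  exact Finset.sum_congr rfl fun n _ => (pow_ncard S (k + 1) n).symm

open Classical in
/-- ideals with many members are rare -/
theorem Few.tail (h : Few S θ) (hθ : θ < 1) (k : ℕ) : ∃ C : ℝ, ∀ T N : ℝ, 0 < T → 1 ≤ N →
    (((IF K N).filter fun n => T ≤ ((U S n).ncard : ℝ)).card : ℝ) ≤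
      C * T ^ (-((k + 1 : ℕ) : ℝ)) * N := by
  obtain ⟨C, hC, hb⟩ := sum_bound (K := K)
  refine ⟨C * ∑' x : Fin (k + 1) → ι, (nn (un S x))⁻¹, fun T N hT hN => ?_⟩
  have h1 := hb (h.summable_tuples hθ k) N (by linarith)
  have h3 : (((IF K N).filter fun n => T ≤ ((U S n).ncard : ℝ)).card : ℝ) * T ^ (k + 1) ≤
      ∑ n ∈ IF K N, ((U (fun x : Fin (k + 1) → ι => un S x) n).ncard : ℝ) := by
    rw [← nsmul_eq_mul]
    refine (Finset.card_nsmul_le_sum _ (fun n => ((U (fun x : Fin (k + 1) → ι =>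
      un S x) n).ncard : ℝ)) _ fun n hn => ?_).trans
      (Finset.sum_le_sum_of_subset_of_nonneg (Finset.filter_subset _ _) fun n _ _ =>
        Nat.cast_nonneg _)
    rw [← pow_ncard S (k + 1) n]
    exact pow_le_pow_left₀ hT.le (Finset.mem_filter.1 hn).2 _
  rw [Real.rpow_neg hT.le, Real.rpow_natCast]
  have h4 : 0 < T ^ (k + 1) := by positivity
  have h5 := h3.trans h1
  rw [← le_div_iff₀ h4] at h5
  refine h5.trans (le_of_eq ?_)
  rw [div_eq_mul_inv]
  ring

variable (K) in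
/-- the points of the line -/
theorem few_pt : Few (fun P : PT K => sp P.1) (2 / 3) := ⟨pt_count K, pt_unit K⟩

end Run7.h283.MV
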