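import Pool.Agent.Run7.h283.MV.Trans

/-!
# Integral points of affine schemes with a map to a power of the line without three points
-/

set_option autoImplicit false

namespace Run7.h283.MV

open NumberField IsDedekindDomain Finset Filter Topology Pool.Agent.H691R3 Pool.Agent.TH876.Loc
open Run7.h283.MK Run7.h283.UE Run7.h283.MO

variable {K : Type} [Field K] [NumberField K]

theorem big_finite (c : K) : {v : Pr K | 1 < fv v c}.Finite := by
  by_cases hc : c = 0
  · refine Set.Finite.subset Set.finite_empty fun v hv => ?_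
    have hv' : 1 < fv v c := hv
    rw [hc, map_zero] at hv'
    exact absurd hv' (by norm_num)
  · refine (fv_support_finite hc).subset fun v hv => ?_
    have hv' : 1 < fv v c := hv
    exact hv'.ne'

/-- a polynomial is integral at almost all primes -/
theorem poly_int {r : ℕ} (f : MvPolynomial (Fin r) K) : ∃ S0 : Finset (Pr K), ∀ v ∉ S0,
    ∀ y : Fin r → K, (∀ i, fv v (y i) ≤ 1) → fv v (MvPolynomial.eval y f) ≤ 1 := by
  classical
  obtain ⟨S0, hS0⟩ : ∃ S0 : Finset (Pr K), S0 =
    f.support.biUnion fun d => (big_finite (f.coeff d)).toFinset := ⟨_, rfl⟩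
  refine ⟨S0, fun v hv y hy => ?_⟩
  rw [MvPolynomial.eval_eq']
  refine fv_sum_le v _ _ 1 zero_le_one fun d hd => ?_
  rw [map_mul, map_prod]
  have h1 : fv v (f.coeff d) ≤ 1 := by
    by_contra hcon
    apply hv
    rw [hS0, Finset.mem_biUnion]
    exact ⟨d, hd, (big_finite _).mem_toFinset.2 (not_le.1 hcon)⟩
  have h2 : ∏ i, fv v (y i ^ d i) ≤ 1 := by
    refine Finset.prod_le_one (fun i _ => (fv v).nonneg _) fun i _ => ?_
    rw [map_pow]
    exact pow_le_one₀ ((fv v).nonneg _) (hy i)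
  exact mul_le_one₀ h1 (Finset.prod_nonneg fun i _ => (fv v).nonneg _) h2

theorem poly_int_fam {r : ℕ} {J : Type*} [Fintype J] (f : J → MvPolynomial (Fin r) K) :
    ∃ S0 : Finset (Pr K), ∀ v ∉ S0,
    ∀ y : Fin r → K, (∀ i, fv v (y i) ≤ 1) → ∀ j, fv v (MvPolynomial.eval y (f j)) ≤ 1 := by
  classical
  choose S h using fun j => poly_int (f j)
  refine ⟨Finset.univ.biUnion S, fun v hv y hy j => h j v (fun hj => hv ?_) y hy⟩
  exact Finset.mem_biUnion.2 ⟨j, Finset.mem_univ _, hj⟩

theorem unit_of_mul {v : Pr K} {a b : K} (hab : a * b = 1) (ha : fv v a ≤ 1) (hb : fv v b ≤ 1) :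
    fv v a = 1 := by
  have h1 : fv v a * fv v b = 1 := by rw [← map_mul, hab, map_one]
  have h0 : 0 ≤ fv v a := (fv v).nonneg _
  nlinarith [(fv v).nonneg b]

/-- the primes at which a point is not integral -/
def poles {r : ℕ} (y : Fin r → K) : Set (Pr K) := {v | ∃ i, 1 < fv v (y i)}

theorem poles_finite {r : ℕ} (y : Fin r → K) : (poles y).Finite := by
  have h : poles y = ⋃ i, {v : Pr K | 1 < fv v (y i)} := by
    ext v
    simp [poles]
  rw [h]
  exact Set.finite_iUnion fun i => big_finite (y i)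

/-- **the family of the rational points** -/
theorem few_var {r m : ℕ} (A : Set (Fin r → K)) (f g h : Fin (m + 1) → MvPolynomial (Fin r) K)
    (hg : ∀ y ∈ A, ∀ j, MvPolynomial.eval y (f j) * MvPolynomial.eval y (g j) = 1)
    (hh : ∀ y ∈ A, ∀ j, (1 - MvPolynomial.eval y (f j)) * MvPolynomial.eval y (h j) = 1)
    (D : ℕ) (hD : ∀ x : Fin (m + 1) → K, ∀ F : Finset A,
      (∀ y ∈ F, ∀ j, MvPolynomial.eval y.1 (f j) = x j) → F.card ≤ D) :
    Few (fun y : A => (poles_finite y.1).toFinset) (1 - (1 - 2 / 3) / ((m : ℝ) + 1)) := by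
  classical
  obtain ⟨S1, h1⟩ := poly_int_fam f
  obtain ⟨S2, h2⟩ := poly_int_fam g
  obtain ⟨S3, h3⟩ := poly_int_fam h
  have hPt : ∀ y : A, ∀ j, -MvPolynomial.eval y.1 (f j) ≠ 0 ∧
      -MvPolynomial.eval y.1 (f j) + 1 ≠ 0 := by
    intro y j
    constructor
    · intro h0
      have h4 := hg y.1 y.2 j
      rw [neg_eq_zero.1 h0, zero_mul] at h4
      exact zero_ne_one h4
    · intro h0
      have h4 := hh y.1 y.2 j
      have h5 : 1 - MvPolynomial.eval y.1 (f j) = 0 := by linear_combination h0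
      rw [h5, zero_mul] at h4
      exact zero_ne_one h4
  refine ((few_pt K).tuples (by norm_num) m).comap
    (fun y j => ⟨-MvPolynomial.eval y.1 (f j), hPt y j⟩) (S1 ∪ (S2 ∪ S3)) D ?_ ?_
  · intro y v hv
    by_contra hcon
    push Not at hcon
    obtain ⟨hc1, hc2⟩ := hcon
    rw [Set.Finite.mem_toFinset] at hc1
    rw [Finset.mem_union, Finset.mem_union] at hc2
    push Not at hc2
    have hy : ∀ i, fv v (y.1 i) ≤ 1 := by
      intro i
      by_contra hcon
      exact hc1 ⟨i, not_le.1 hcon⟩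
    obtain ⟨j, hj⟩ := mem_un.1 hv
    have e1 := h1 v hc2.1 y.1 hy j
    have e2 := h2 v hc2.2.1 y.1 hy j
    have e3 := h3 v hc2.2.2 y.1 hy j
    have e4 := unit_of_mul (hg y.1 y.2 j) e1 e2
    have e5 : fv v (1 - MvPolynomial.eval y.1 (f j)) ≤ 1 := by
      rw [sub_eq_add_neg]
      refine (fv_na v _ _).trans (max_le (by rw [map_one]) ?_)
      rw [(fv v).map_neg]
      exact e1
    have e6 := unit_of_mul (hh y.1 y.2 j) e5 e3
    have e7 : v ∉ sp (-MvPolynomial.eval y.1 (f j)) := by
      rw [mem_sp (hPt y j)]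
      push Not
      refine ⟨?_, ?_⟩
      · rw [(fv v).map_neg]
        exact e4
      · rw [neg_add_eq_sub]
        exact e6
    exact e7 hj
  · intro x F hF
    refine hD (fun j => -(x j).1) F fun y hy j => ?_
    have h4 := hF y hy
    have h5 : (x j).1 = -MvPolynomial.eval y.1 (f j) := by rw [← h4]
    rw [h5, neg_neg]

end Run7.h283.MV
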